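import Pool.Agent.Helper74.CO.Goals

/-! # Packet CO-AVG: averages of products of Fejer weights -/

set_option autoImplicit false

namespace Pool.Agent.Helper86.CO

open Finset Pool.Agent.Helper74.CO

private lemma ex_add (s t : ℝ) : ex (s + t) = ex s * ex t := by
  unfold ex
  rw [← Complex.exp_add]
  congr 1
  push_cast
  ring

private lemma ex_zero : ex 0 = 1 := by
  unfold ex
  simp

private lemma norm_ex (t : ℝ) : ‖ex t‖ = 1 := by
  unfold ex
  have h : (2 * Real.pi * t * Complex.I : ℂ) = ((2 * Real.pi * t : ℝ) : ℂ) * Complex.I := by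
    push_cast; ring
  rw [h, Complex.norm_exp_ofReal_mul_I]

private lemma conj_ex (t : ℝ) : (starRingEnd ℂ) (ex t) = ex (-t) := by
  unfold ex
  rw [← Complex.exp_conj]
  have h : (2 * Real.pi * t * Complex.I : ℂ) = ((2 * Real.pi * t : ℝ) : ℂ) * Complex.I := by
    push_cast; ring
  rw [h, map_mul, Complex.conj_ofReal, Complex.conj_I]
  congr 1
  push_cast
  ring

private def dd (p : ℕ × ℕ) : ℤ := (p.1 : ℤ) - p.2

private def R (K : ℕ) : Finset (ℕ × ℕ) := range K ×ˢ range K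

private lemma fw_eq (K : ℕ) (t : ℝ) :
    (fw K t : ℂ) = (∑ p ∈ R K, ex (dd p * t)) / (K : ℂ) ^ 2 := by
  unfold fw
  push_cast
  congr 1
  rw [← Complex.mul_conj', map_sum, sum_mul_sum]
  unfold R
  rw [sum_product]
  refine sum_congr rfl fun i _ => sum_congr rfl fun j _ => ?_
  rw [conj_ex, ← ex_add]
  congr 1
  unfold dd
  push_cast
  ring

private lemma dd_lt {K : ℕ} {p : ℕ × ℕ} (hp : p ∈ R K) : |dd p| < K := by
  unfold R at hp
  rw [mem_product, mem_range, mem_range] at hp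
  unfold dd
  rw [abs_lt]
  omega

private lemma card_R (K : ℕ) : #(R K) = K * K := by
  unfold R
  rw [card_product, card_range]

private lemma sum_diag (K : ℕ) : ∑ p ∈ R K, (if dd p = 0 then (1 : ℂ) else 0) = K := by
  unfold R
  rw [sum_product]
  have h : ∀ i ∈ range K, ∑ j ∈ range K, (if dd (i, j) = 0 then (1 : ℂ) else 0) = 1 := by
    intro i hi
    rw [sum_eq_single i]
    · simp [dd]
    · intro j _ hj
      rw [if_neg]
      unfold dd
      intro h
      apply hj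
      simp only at h
      omega
    · intro h
      exact absurd hi h
  rw [sum_congr rfl h]
  simp

private lemma triple {κ : Type} (s t u : Finset κ) (f g h : κ → ℂ) :
    (∑ p ∈ s, f p) * (∑ p ∈ t, g p) * (∑ p ∈ u, h p) =
      ∑ p ∈ s ×ˢ (t ×ˢ u), f p.1 * g p.2.1 * h p.2.2 := by
  rw [sum_product, mul_assoc, sum_mul_sum, sum_mul_sum]
  refine sum_congr rfl fun i _ => ?_
  rw [sum_product]
  simp only [mul_sum]
  refine sum_congr rfl fun j _ => sum_congr rfl fun k _ => ?_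
  ring

theorem t_AVG : AVG := by
  intro ι X a b c Ka Kb Kc κ a₀ b₀ c₀ hKa hKb hKc hκ hE
  set P : Finset ((ℕ × ℕ) × (ℕ × ℕ) × (ℕ × ℕ)) := R Ka ×ˢ (R Kb ×ˢ R Kc) with hP
  let E : ι → (ℕ × ℕ) × (ℕ × ℕ) × (ℕ × ℕ) → ℂ := fun x p =>
    ex (dd p.1 * (a x - a₀)) * ex (dd p.2.1 * (b x - b₀)) * ex (dd p.2.2 * (c x - c₀))
  let D : (ℕ × ℕ) × (ℕ × ℕ) × (ℕ × ℕ) → ℂ := fun p =>
    (if dd p.1 = 0 then (1 : ℂ) else 0) * (if dd p.2.1 = 0 then (1 : ℂ) else 0) *
      (if dd p.2.2 = 0 then (1 : ℂ) else 0)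
  have hKa' : (Ka : ℂ) ≠ 0 := by exact_mod_cast (by omega : Ka ≠ 0)
  have hKb' : (Kb : ℂ) ≠ 0 := by exact_mod_cast (by omega : Kb ≠ 0)
  have hKc' : (Kc : ℂ) ≠ 0 := by exact_mod_cast (by omega : Kc ≠ 0)
  have h1 : ∀ x, ((fw Ka (a x - a₀) * fw Kb (b x - b₀) * fw Kc (c x - c₀) : ℝ) : ℂ) =
      (∑ p ∈ P, E x p) / ((Ka : ℂ) * Kb * Kc) ^ 2 := by
    intro x
    rw [Complex.ofReal_mul, Complex.ofReal_mul, fw_eq, fw_eq, fw_eq]
    rw [show (∑ p ∈ P, E x p) = _ from (triple (R Ka) (R Kb) (R Kc)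
      (fun p => ex (dd p * (a x - a₀))) (fun p => ex (dd p * (b x - b₀)))
      (fun p => ex (dd p * (c x - c₀)))).symm]
    rw [div_mul_div_comm, div_mul_div_comm, mul_pow, mul_pow]
  have h2 : ∑ p ∈ P, D p = (Ka : ℂ) * Kb * Kc := by
    rw [show (∑ p ∈ P, D p) = _ from (triple (R Ka) (R Kb) (R Kc)
      (fun p => if dd p = 0 then (1 : ℂ) else 0) (fun p => if dd p = 0 then (1 : ℂ) else 0)
      (fun p => if dd p = 0 then (1 : ℂ) else 0)).symm, sum_diag, sum_diag, sum_diag]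
  have h0 : 0 ≤ κ * #X := by positivity
  have h3 : ∀ p ∈ P, ‖(∑ x ∈ X, E x p) - D p * #X‖ ≤ κ * #X := by
    intro p hp
    rw [hP, mem_product, mem_product] at hp
    obtain ⟨hp1, hp2, hp3⟩ := hp
    by_cases hD : dd p.1 = 0 ∧ dd p.2.1 = 0 ∧ dd p.2.2 = 0
    · obtain ⟨e1, e2, e3⟩ := hD
      have h4 : ∀ x, E x p = 1 := by
        intro x
        simp only [E, e1, e2, e3]
        simp [ex_zero]
      have h5 : D p = 1 := by
        simp only [D, e1, e2, e3]
        simp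
      simp only [h4, h5]
      simpa using h0
    · have h5 : D p = 0 := by
        simp only [D]
        by_cases e1 : dd p.1 = 0
        · by_cases e2 : dd p.2.1 = 0
          · by_cases e3 : dd p.2.2 = 0
            · exact absurd ⟨e1, e2, e3⟩ hD
            · simp [e3]
          · simp [e2]
        · simp [e1]
      have h6 : ∑ x ∈ X, E x p = ex (-(dd p.1 * a₀ + dd p.2.1 * b₀ + dd p.2.2 * c₀)) *
          ∑ x ∈ X, ex (dd p.1 * a x + dd p.2.1 * b x + dd p.2.2 * c x) := by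
        rw [mul_sum]
        refine sum_congr rfl fun x _ => ?_
        simp only [E]
        rw [← ex_add, ← ex_add, ← ex_add]
        congr 1
        ring
      rw [h5, zero_mul, sub_zero, h6, norm_mul, norm_ex, one_mul]
      exact hE _ _ _ (dd_lt hp1) (dd_lt hp2) (dd_lt hp3) hD
  have h7 : ((∑ x ∈ X, fw Ka (a x - a₀) * fw Kb (b x - b₀) * fw Kc (c x - c₀) -
      (#X : ℝ) / (Ka * Kb * Kc) : ℝ) : ℂ) =
      (∑ p ∈ P, ((∑ x ∈ X, E x p) - D p * #X)) / ((Ka : ℂ) * Kb * Kc) ^ 2 := by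
    rw [Complex.ofReal_sub, Complex.ofReal_sum, sum_congr rfl fun x _ => h1 x, ← sum_div,
      sum_sub_distrib, sum_comm, ← sum_mul, h2, sub_div]
    congr 1
    push_cast
    field_simp
  have h8 : ‖∑ p ∈ P, ((∑ x ∈ X, E x p) - D p * #X)‖ ≤ ((Ka : ℝ) * Kb * Kc) ^ 2 * (κ * #X) := by
    refine (norm_sum_le _ _).trans ((sum_le_card_nsmul _ _ _ h3).trans ?_)
    rw [nsmul_eq_mul, hP, card_product, card_product, card_R, card_R, card_R]
    push_cast
    apply le_of_eq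
    ring
  have hK : (0 : ℝ) < ((Ka : ℝ) * Kb * Kc) ^ 2 := by
    have e1 : (0 : ℝ) < Ka := by exact_mod_cast hKa
    have e2 : (0 : ℝ) < Kb := by exact_mod_cast hKb
    have e3 : (0 : ℝ) < Kc := by exact_mod_cast hKc
    positivity
  rw [← Real.norm_eq_abs, ← Complex.norm_real, h7, norm_div]
  have h9 : ‖((Ka : ℂ) * Kb * Kc) ^ 2‖ = ((Ka : ℝ) * Kb * Kc) ^ 2 := by
    rw [norm_pow, norm_mul, norm_mul, Complex.norm_natCast, Complex.norm_natCast,
      Complex.norm_natCast]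
  rw [h9, div_le_iff₀ hK, mul_comm (κ * #X)]
  exact h8

end Pool.Agent.Helper86.CO
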