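import Pool.Agent.Helper74.CO.Goals

/-! # Packet CO-JAC-GAU: Jacobi and Gauss sums, weak bounds -/

set_option autoImplicit false

namespace Pool.Agent.Helper86.CO

open Finset Pool.Agent.Helper74.CO

section
variable (F : Type) [Field F] [Fintype F] [DecidableEq F]

private lemma norm_mulChar (χ : MulChar F ℂ) (x : F) : ‖χ x‖ ≤ 1 := by
  by_cases hx : x = 0
  · rw [hx, MulChar.map_zero]
    simp
  · have h1 : χ x ^ (Fintype.card F - 1) = 1 := by
      rw [← map_pow, FiniteField.pow_card_sub_one_eq_one x hx, map_one]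
    have h2 : Fintype.card F - 1 ≠ 0 := by
      have := Fintype.one_lt_card (α := F)
      omega
    exact (Complex.norm_eq_one_of_pow_eq_one h1 h2).le

private lemma outer (f : F → F → ℂ) (h1 : ∀ r x, ‖f r x‖ ≤ 1)
    (h2 : ∀ r, r ≠ 0 → r ≠ 1 → ‖∑ x ∈ univ.erase (0 : F), f r x‖ ≤ 2) :
    ∑ r ∈ univ.erase (0 : F), ‖∑ x ∈ univ.erase (0 : F), f r x‖ ≤ 4 * Fintype.card F := by
  have hq : (0 : ℝ) ≤ Fintype.card F := Nat.cast_nonneg _
  have hcard : (#(univ.erase (0 : F)) : ℝ) ≤ Fintype.card F := by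
    exact_mod_cast card_le_univ _
  have h3 : ∀ r ∈ univ.erase (0 : F), ‖∑ x ∈ univ.erase (0 : F), f r x‖ ≤
      (if r = 1 then (Fintype.card F : ℝ) else 0) + 2 := by
    intro r hr
    by_cases hr1 : r = 1
    · rw [if_pos hr1]
      have h4 : ‖∑ x ∈ univ.erase (0 : F), f r x‖ ≤ #(univ.erase (0 : F)) • (1 : ℝ) :=
        (norm_sum_le _ _).trans (sum_le_card_nsmul _ _ _ fun x _ => h1 r x)
      rw [nsmul_eq_mul, mul_one] at h4
      linarith
    · rw [if_neg hr1]
      have := h2 r (ne_of_mem_erase hr) hr1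
      linarith
  refine (sum_le_sum h3).trans ?_
  rw [sum_add_distrib, sum_const, nsmul_eq_mul]
  have h5 : ∑ r ∈ univ.erase (0 : F), (if r = 1 then (Fintype.card F : ℝ) else 0) ≤
      Fintype.card F := by
    rw [sum_ite_eq']
    split_ifs
    · exact le_rfl
    · exact hq
  linarith

theorem t_JAC (hC : CSR F) (hO : ORT F) : JAC F := by
  intro χ₁ χ₂ t hχ ht
  refine (hC χ₁ (fun x => χ₂ (x - t))).trans ?_
  apply outer F (fun r x => χ₂ (x - t) * (starRingEnd ℂ) (χ₂ (r * x - t)))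
  · intro r x
    rw [norm_mul, RCLike.norm_conj]
    have h1 := norm_mulChar F χ₂ (x - t)
    have h2 := norm_mulChar F χ₂ (r * x - t)
    exact mul_le_one₀ h1 (norm_nonneg _) h2
  · intro r hr hr1
    have h1 : ∑ x, χ₂ (x - t) * (starRingEnd ℂ) (χ₂ (r * x - t)) =
        -(starRingEnd ℂ) (χ₂ r) := by
      have h2 := hO χ₂ (-t) (-(t / r)) hχ
      rw [if_neg] at h2
      · have h3 : ∑ x, χ₂ (x - t) * (starRingEnd ℂ) (χ₂ (r * x - t)) =
            (starRingEnd ℂ) (χ₂ r) * ∑ z, χ₂ (-t - z) * (starRingEnd ℂ) (χ₂ (-(t / r) - z)) := by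
          rw [mul_sum]
          refine Fintype.sum_equiv (Equiv.neg F) _ _ fun x => ?_
          have e1 : r * x - t = r * (-(t / r) - -x) := by
            field_simp
            ring
          rw [e1, map_mul, map_mul, Equiv.neg_apply]
          have e2 : -t - -x = x - t := by ring
          rw [e2]
          ring
        rw [h3, h2]
        ring
      · intro h
        apply hr1
        have h4 : t = t / r := by
          have := congrArg Neg.neg h
          simpa using this
        have h5 : t * r = t * 1 := by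
          rw [eq_div_iff hr] at h4
          rw [h4, mul_one]
        exact mul_left_cancel₀ ht h5
    have h6 := sum_erase_add (univ : Finset F)
      (fun x => χ₂ (x - t) * (starRingEnd ℂ) (χ₂ (r * x - t))) (mem_univ (0 : F))
    rw [h1] at h6
    have h7 : ∑ x ∈ univ.erase (0 : F), χ₂ (x - t) * (starRingEnd ℂ) (χ₂ (r * x - t)) =
        -(starRingEnd ℂ) (χ₂ r) - χ₂ (0 - t) * (starRingEnd ℂ) (χ₂ (r * 0 - t)) := by
      rw [← h6]
      ring
    rw [h7]
    refine (norm_sub_le _ _).trans ?_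
    rw [norm_neg, norm_mul, RCLike.norm_conj, RCLike.norm_conj]
    have k1 := norm_mulChar F χ₂ r
    have k2 := mul_le_one₀ (norm_mulChar F χ₂ (0 - t)) (norm_nonneg _)
      (norm_mulChar F χ₂ (r * 0 - t))
    linarith

theorem t_GAU (hC : CSR F) : GAU F := by
  intro χ₁ ψ hψ
  have hn : ∀ x, ‖ψ x‖ = 1 := fun x => AddChar.norm_apply ψ x
  refine (hC χ₁ (fun x => ψ x)).trans ?_
  apply outer F (fun r x => ψ x * (starRingEnd ℂ) (ψ (r * x)))
  · intro r x
    rw [norm_mul, RCLike.norm_conj, hn, hn]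
    simp
  · intro r hr hr1
    have h0 : ∀ x, ψ x * (starRingEnd ℂ) (ψ (r * x)) = ψ ((1 - r) * x) := by
      intro x
      rw [← AddChar.map_neg_eq_conj, ← AddChar.map_add_eq_mul]
      congr 1
      ring
    have hr1' : (1 - r : F) ≠ 0 := sub_ne_zero.2 (Ne.symm hr1)
    have h1 : ∑ x, ψ ((1 - r) * x) = 0 := by
      have h2 : ∑ x, ψ ((1 - r) * x) = ∑ x, ψ x :=
        Fintype.sum_equiv (Equiv.mulLeft₀ (1 - r) hr1') _ _ fun x => rfl
      rw [h2]
      exact AddChar.sum_eq_zero_of_ne_one hψ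
    have h6 := sum_erase_add (univ : Finset F) (fun x => ψ ((1 - r) * x)) (mem_univ (0 : F))
    rw [h1] at h6
    have h7 : ∑ x ∈ univ.erase (0 : F), ψ x * (starRingEnd ℂ) (ψ (r * x)) = -1 := by
      rw [sum_congr rfl fun x _ => h0 x]
      have h8 : ψ ((1 - r) * 0) = 1 := by rw [mul_zero, AddChar.map_zero_eq_one]
      rw [h8] at h6
      exact eq_neg_of_add_eq_zero_left h6
    rw [h7]
    norm_num

end

end Pool.Agent.Helper86.CO
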